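import Pool.Agent.PSV.StmtsF

/-!
# Squad PSV: assembly of the uniform theorem
-/

set_option autoImplicit false

namespace Pool.Agent.PSV.H35

open Matrix Polynomial NumberField Pool.Agent.MT100 Pool.Agent.MT100G Pool.Agent.MT100A
  Pool.Agent.MT100D Pool.Agent.Helper78_MT Pool.Agent.MTL Pool.Agent.MTN Pool.Agent.MTN.H53
  Pool.Agent.HIK Pool.Agent.PSV

universe u

theorem n1q (hM : MaqStmt.{u}) (hW : WdqStmt) (hF : FpqStmt.{u}) (hL : FnpStmt.{u})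
    (hC : PscStmt) (hPid : PidStmt) : N1qStmt.{u} := by
  classical
  intro n
  obtain ⟨c1, a1, h1⟩ := hM n
  obtain ⟨c2, h2⟩ := hF n
  -- the constants of the number fields
  have hk : ∀ (k : Type) [Field k] [NumberField k], ∃ Ck : ℕ,
      ∀ (σ : k →+* ℂ) (S : Set ℂ) (C B : ℕ), 1 ≤ B → 1 ≤ C →
      (∀ K : ℕ, ∀ x ∈ Pts (Module.finrank ℚ k) (2 * Module.finrank ℚ k + 2),
        ((B * (K + 1) : ℕ) : ℝ) ^ (a1 (Module.finrank ℚ k) (2 * Module.finrank ℚ k + 2) + 1) ≤ ‖x‖ →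
        Nat.card {κ : ℕ // κ < K ∧ x - κ ∈ S} ≤ C) →
      ∀ X : ℕ, 1 ≤ X → (Nat.card {x : 𝓞 k // σ x ∈ S ∧ house (x : k) ≤ X} : ℝ) ≤
        Ck * C * B * (X : ℝ) ^ ((Module.finrank ℚ k : ℝ) -
          1 / (2 * ((a1 (Module.finrank ℚ k) (2 * Module.finrank ℚ k + 2) + 1 : ℕ) : ℝ))) := by
    intro k _ _
    exact hW k _ (Nat.succ_le_succ (Nat.zero_le _))
  refine ⟨c1 + 1 + c2, fun m A => a1 m A + 1,
    fun m => 1 / (2 * ((a1 m (2 * m + 2) + 1 : ℕ) : ℝ)),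
    fun k _ _ => Classical.choose (hk k), fun m => by positivity, ?_⟩
  intro d _ _ F B hFB w lev hw P hP hInt
  have hB2 : 2 ≤ B := hFB.two
  have hB1 : 1 ≤ B := by omega
  have hBR : (1 : ℝ) ≤ B := by exact_mod_cast hB1
  obtain ⟨S, hwin, hS⟩ := h1 d F B hFB w lev hw P hP hInt
  have hcmp : (B : ℝ) ^ c2 ≤ (B : ℝ) ^ (c1 + 1 + c2) := pow_le_pow_right₀ hBR (by omega)
  have hwin' : ∀ (m A K : ℕ), ∀ x ∈ Pts m A, ((B * (K + 1) : ℕ) : ℝ) ^ (a1 m A + 1) ≤ ‖x‖ →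
      Nat.card {κ : ℕ // κ < K ∧ x - κ ∈ S} ≤ B ^ c1 := by
    intro m A K x hx hxn
    refine hwin m A K x hx (le_trans ?_ hxn)
    have h3 : (1 : ℝ) ≤ ((B * (K + 1) : ℕ) : ℝ) := by
      have h4 : 1 ≤ B * (K + 1) := Nat.mul_pos hB1 (Nat.succ_pos K)
      exact_mod_cast h4
    exact pow_le_pow_right₀ h3 (Nat.le_succ _)
  have hside : ∀ x : ℂ, x ∉ S → HSide.{u} F lev P w ((B : ℝ) ^ (c1 + 1 + c2)) x := by
    intro x hx E V hV
    refine ⟨hS x hx E V hV, fun R hR hRx hfix y hy E' V' hV' hFil' => ?_⟩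
    exact h2 d F B hFB w lev hw P R hP hInt (hcmp.trans hR) hfix x y hRx hy E E' V V' hV
      (hS x hx E V hV) hV' hFil'
  refine ⟨S, ?_, ?_, hside, ?_⟩
  · intro m A K x hx hxn
    exact (hwin' m A K x hx hxn).trans (Nat.pow_le_pow_right hB1 (by omega))
  · intro k _ _ σ X hX
    have h3 := Classical.choose_spec (hk k) σ S (B ^ c1) B hB1 (Nat.one_le_pow _ _ hB1)
      (fun K x hx hxn => hwin' _ _ K x hx hxn) X hX
    refine h3.trans ?_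
    have h5 : (0 : ℝ) ≤ (X : ℝ) ^ ((Module.finrank ℚ k : ℝ) -
          1 / (2 * ((a1 (Module.finrank ℚ k) (2 * Module.finrank ℚ k + 2) + 1 : ℕ) : ℝ))) :=
      Real.rpow_nonneg (Nat.cast_nonneg _) _
    refine mul_le_mul_of_nonneg_right ?_ h5
    rw [mul_assoc]
    refine mul_le_mul_of_nonneg_left ?_ (Nat.cast_nonneg _)
    push_cast
    rw [← pow_succ]
    exact pow_le_pow_right₀ hBR (by omega)
  · intro ρ hρ k _ _
    have hex : ∀ ℓ : ℕ, ∃ T : Set (𝓞 k), PSav k T ∧ ∀ (hℓ : Fact ℓ.Prime), ∀ x ∉ T,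
        ∀ (ψ : k →+* QB) (ρx : Stab (ψ x) →* GL d ℚ_[ℓ]), SpecializesAt (ρ ℓ) (ψ x) ρx →
          ∀ (K : Type u) [Field K] [Algebra ℚ_[ℓ] K], monodromy ρx K = monodromy (ρ ℓ) K := by
      intro ℓ
      by_cases hℓ : Nat.Prime ℓ
      · have : Fact ℓ.Prime := ⟨hℓ⟩
        obtain ⟨T, hT, h3⟩ := hL k d ℓ (ρ ℓ) (hρ ℓ)
        exact ⟨T, hT, fun _ => h3⟩
      · exact ⟨∅, (hC k).2.2.1 ∅ Set.finite_empty, fun h => absurd h.out hℓ⟩
    choose T hT hT1 using hex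
    obtain ⟨T', N, hT', hN⟩ := hPid k T fun ℓ => (hC k).2.2.2 _ (hT ℓ)
    refine ⟨T, T', N, hT, hT', hN, ?_⟩
    intro ℓ hℓ x hx ψ ρx hsp K _ _ _
    have hmon := hT1 ℓ hℓ x hx ψ ρx hsp K
    refine ⟨hmon, fun e he E V hV => ?_⟩
    have h3 := (hside _ he E V hV).1 K
    refine ⟨by rw [hmon, h3], fun R hR hRx hfix y hy hyS E' V' hV' => ?_⟩
    have h4 := (hside _ he E V hV).2 R hR hRx hfix y hy E' V' hV'.1 hV'.2.2 K
    have h5 := (hside y hyS E' V' hV').2 R hR hy hfix _ hRx E V hV.1 hV.2.2 K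
    rw [hmon, Set.Subset.antisymm h5 h4]

theorem n1m (h : N1qStmt.{u}) (hM : MpcStmt) : N1mStmt.{u} := by
  classical
  intro n M e
  obtain ⟨c, a, δ, Ck, hδ, h⟩ := h n
  refine ⟨e * c, fun k _ _ => ?_⟩
  obtain ⟨q, C', hq⟩ := hM k M (e * c) (Ck k) (δ (Module.finrank ℚ k)) (hδ _)
  refine ⟨q, C', δ (Module.finrank ℚ k) / 2, half_pos (hδ _), ?_⟩
  intro d _ _ G F hF w lev P hw hP hInt σ
  have hex : ∀ g : Fin M → ℤ, ∃ S : Set ℂ,
      (∀ X : ℕ, 1 ≤ X → (Nat.card {x : 𝓞 k // σ x ∈ S ∧ house (x : k) ≤ X} : ℝ) ≤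
            Ck k * ((2 + ∑ i, (g i).natAbs : ℕ) : ℝ) ^ (e * c) *
              (X : ℝ) ^ ((Module.finrank ℚ k : ℝ) - δ (Module.finrank ℚ k))) ∧
      (g ∈ G → ∀ x : ℂ, x ∉ S →
        HSide.{u} (F g) lev (P g) w (((2 + ∑ i, (g i).natAbs : ℕ) : ℝ) ^ (e * c)) x) := by
    intro g
    by_cases hg : g ∈ G
    · obtain ⟨S, -, h2, h3, -⟩ := h d (F g) _ (hF g hg) w lev hw (P g) (hP g hg) (hInt g hg)
      refine ⟨S, ?_, ?_⟩
      · intro X hX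
        have h4 := h2 k σ X hX
        rw [Nat.cast_pow, ← pow_mul] at h4
        exact h4
      · intro _ x hx
        have h4 := h3 x hx
        rw [Nat.cast_pow, ← pow_mul] at h4
        exact h4
    · refine ⟨∅, ?_, fun h => absurd h hg⟩
      intro X hX
      have h4 : Nat.card {x : 𝓞 k // σ x ∈ (∅ : Set ℂ) ∧ house (x : k) ≤ X} = 0 := by
        have : IsEmpty {x : 𝓞 k // σ x ∈ (∅ : Set ℂ) ∧ house (x : k) ≤ X} :=
          ⟨fun x => x.2.1⟩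
        exact Nat.card_of_isEmpty
      rw [h4, Nat.cast_zero]
      positivity
  choose S hS1 hS2 using hex
  refine ⟨{p | σ p.1 ∈ S p.2}, ?_, ?_⟩
  · intro X Y hY hYX
    exact hq (fun g => {x : 𝓞 k | σ x ∈ S g}) (fun g X hX => hS1 g X hX) X Y hY hYX
  · intro x g hx hg
    exact hS2 g hg (σ x) hx

end Pool.Agent.PSV.H35
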